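import Pool.Agent.Work.MP_db9399_oc_helper42.BAS

/-!
# MP_db9399, OCB4, block BAS: `stmt_BAS` (helper42)

`stmt_BAS : Stmt_BAS`, without hypotheses.
-/

set_option autoImplicit false

namespace Pool.Agent.Work.MP_db9399_oc_helper42

open Finset Classical
open Pool.Agent.Work.MP_db9399_all (nb)
open Pool.Agent.Work.MP_db9399_da hiding qV
open Pool.Agent.Work.MP_db9399_xf
open Pool.Agent.Work.MP_db9399_x4
open Pool.Agent.Work.MP_db9399_oc

universe u

section
variable {V : Type u} [Fintype V] {N J : ℕ} {k : Con} {c' : ℝ} {D : OD V N J}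

omit [Fintype V] in
theorem te_symm {v w : V} (h : Te D.G D.X v w) : Te D.G D.X w v :=
  ⟨h.1.symm, h.2.2, h.2.1⟩

omit [Fintype V] in
theorem te_irr (v : V) : ¬ Te D.G D.X v v := fun h => (thin D.G D.X.P).loopless.irrefl v h.1

theorem card_te (R : Finset V) (f : V → ℕ) (v : V) (g : ℕ) :
    ((R.filter (fun w => Te D.G D.X v w ∧ f w = g)).card : ℝ) =
      ∑ z ∈ R.filter (fun z => f z = g),
        (wq D (Sum.inl v : V ⊕ (ULift.{u} (Fin N) ⊕ ULift.{u} (Fin N))) z : ℝ) := by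
  have e1 : R.filter (fun w => Te D.G D.X v w ∧ f w = g) =
      (R.filter (fun z => f z = g)).filter (fun z => Te D.G D.X v z) := by
    ext z
    simp only [mem_filter]
    tauto
  rw [e1, card_filter]
  push_cast
  refine sum_congr rfl fun z _ => ?_
  have e2 : wq D (Sum.inl v : V ⊕ (ULift.{u} (Fin N) ⊕ ULift.{u} (Fin N))) z =
    if Te D.G D.X v z then 1 else 0 := rfl
  rw [e2]
  split_ifs <;> simp

theorem card_pc (R : Finset V) (hR : ∀ z ∈ R, InT D.X Ty.B z) (f : V → ℕ) (n : Fin N) (g : ℕ) :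
    ((R.filter (fun w => D.X.P.pc w = n ∧ f w = g)).card : ℝ) =
      ∑ z ∈ R.filter (fun z => f z = g),
        (wq D (Sum.inr (Sum.inl ⟨n⟩) : V ⊕ (ULift.{u} (Fin N) ⊕ ULift.{u} (Fin N))) z : ℝ) := by
  have e1 : R.filter (fun w => D.X.P.pc w = n ∧ f w = g) =
      (R.filter (fun z => f z = g)).filter (fun z => z ∈ pV D.X.P n) := by
    ext z
    simp only [mem_filter, pV, mem_univ, true_and]
    constructor
    · rintro ⟨h1, h2, h3⟩
      exact ⟨⟨h1, h3⟩, (hR z h1).1, h2⟩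
    · rintro ⟨⟨h1, h3⟩, _, h2⟩
      exact ⟨h1, h2, h3⟩
  rw [e1, card_filter]
  push_cast
  refine sum_congr rfl fun z _ => ?_
  have e2 : wq D (Sum.inr (Sum.inl ⟨n⟩) : V ⊕ (ULift.{u} (Fin N) ⊕ ULift.{u} (Fin N))) z =
    if z ∈ pV D.X.P n then 1 else 0 := rfl
  rw [e2]
  split_ifs <;> simp

/-- vertices of type B of a cluster with the colour `b` -/
theorem clCard (H : Hyp k c' D) (R : Finset V) (hR : ∀ z ∈ R, InT D.X Ty.B z) (c : V → ℕ)
    (T : Fin N → ℕ) (hT : ∀ p b, (R.filter (fun v => D.X.P.pc v = p ∧ c v = b)).card ≤ T p)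
    (hTs : ∀ p p', D.X.sc p = D.X.sc p' → T p = T p') {v0 : V} (hv0 : v0 ∉ D.X.P.V0) {j : ℕ}
    (hj : D.X.cq v0 = some j) (b : ℕ) :
    (R.filter (fun w => c w = b ∧ D.X.cq w = some j)).card ≤ k.M * T (D.X.P.pc v0) := by
  set Cl : Finset (Fin N) := univ.filter (fun n => ∃ v, v ∉ D.X.P.V0 ∧ D.X.P.pc v = n ∧
    D.X.cq v = some j) with hCl
  have h1 : Cl.card ≤ k.M := H.pc.npc j
  have h2 : (R.filter (fun w => c w = b ∧ D.X.cq w = some j)).card =
      ∑ p ∈ Cl, ((R.filter (fun w => c w = b ∧ D.X.cq w = some j)).filter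
        (fun w => D.X.P.pc w = p)).card := by
    refine card_eq_sum_card_fiberwise (fun w hw => ?_)
    have hw' := mem_filter.1 (mem_coe.1 hw)
    exact mem_coe.2 (mem_filter.2 ⟨mem_univ _, w, (hR w hw'.1).1, rfl, hw'.2.2⟩)
  rw [h2]
  have h3 : ∀ p ∈ Cl, ((R.filter (fun w => c w = b ∧ D.X.cq w = some j)).filter
      (fun w => D.X.P.pc w = p)).card ≤ T (D.X.P.pc v0) := by
    intro p hp
    obtain ⟨v, hv, hvp, hvj⟩ := (mem_filter.1 hp).2
    have h4 : D.X.sc p = D.X.sc (D.X.P.pc v0) := by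
      rw [← hvp]
      exact H.pc.scq v v0 hv hv0 (hvj.trans hj.symm)
    rw [← hTs p _ h4]
    refine le_trans (card_le_card ?_) (hT p b)
    intro w hw
    have hw' := mem_filter.1 hw
    have hw2 := mem_filter.1 hw'.1
    exact mem_filter.2 ⟨hw2.1, hw'.2, hw2.2.1⟩
  refine (sum_le_card_nsmul _ _ _ h3).trans ?_
  rw [smul_eq_mul]
  exact Nat.mul_le_mul_right _ h1

/-- thin neighbours in a piece of type K -/
theorem nbK (H : Hyp k c' D) {w : V} (hw : InT D.X Ty.B w) {n : Fin N}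
    (hn : D.X.P.ty n = Ty.K) :
    ((nb D.G w ∩ pV D.X.P n).card : ℝ) ≤ (D.sl (D.X.P.pc w)).ζ * D.d := by
  refine le_trans ?_ (H.pc.thd w (Or.inr hw))
  have h1 : nb D.G w ∩ pV D.X.P n ⊆ nb (thin D.G D.X.P) w := by
    intro z hz
    have hz1 := (mem_filter.1 (mem_inter.1 hz).1).2
    have hz2 := (mem_filter.1 (mem_inter.1 hz).2).2
    refine mem_filter.2 ⟨mem_univ _, hz1, ?_⟩
    intro hb
    have h2 := hb.2.2.2.1
    have h3 := hw.2
    rw [h2, hz2.2, hn] at h3
    exact absurd h3 (by decide)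
  exact_mod_cast card_le_card h1

theorem nbW (H : Hyp k c' D) {w : V} {n : Fin N} {v0 : V} (hv0 : v0 ∈ pV D.X.P n)
    (hw : D.X.cq w ≠ D.X.cq v0) : (nb D.G w ∩ pV D.X.P n).card ≤ wk D n w := by
  refine card_le_card fun z hz => ?_
  have hz1 := (mem_filter.1 (mem_inter.1 hz).1).2
  have hz2 := (mem_filter.1 (mem_inter.1 hz).2).2
  have hv1 := (mem_filter.1 hv0).2
  refine mem_filter.2 ⟨(mem_inter.1 hz).2, hz1, ?_⟩
  rw [H.pc.clp z v0 hz2.1 hv1.1 (hz2.2.trans hv1.2.symm)]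
  exact hw

end

theorem stmt_BAS : Stmt_BAS.{u} := by
  intro k hk
  have hC := hk.C1
  have he : 0 < k.e := lt_of_lt_of_le (by have := hk.τ0; positivity) hk.τe
  have hMn : (0 : ℝ) ≤ k.M := Nat.cast_nonneg _
  refine ⟨⟨fun _ => 1, fun _ _ => 1, fun _ _ _ => 1, fun _ _ κ _ => min (κ ^ 2 / 10 ^ 6)
    (k.e * κ ^ 2 / (16 * 220001 * k.C * (k.M + 1))), fun _ _ _ _ _ => 1⟩, ?_, ?_⟩
  · constructor
    · intro _ _; exact one_pos
    · intro _ _ _ _; exact one_pos
    · intro _ _ _ _ _ _; exact one_pos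
    · intro _ _ κ _ _ _ hκ _
      exact lt_min (by positivity) (by positivity)
    · intro _ _ _ _ _ _ _ _ _ _; exact one_pos
  intro J S c' hS hc hc2
  obtain ⟨κ0, hκ0, hκ0s⟩ : ∃ κ0 : ℝ, 0 < κ0 ∧ ∀ s, κ0 ≤ (S s).κ := by
    rcases (univ : Finset (Fin J)).eq_empty_or_nonempty with h | h
    · exact ⟨1, one_pos, fun s => absurd (mem_univ s) (by rw [h]; exact notMem_empty s)⟩
    · obtain ⟨s, _, hs⟩ := exists_min_image univ (fun s => (S s).κ) h
      exact ⟨(S s).κ, (hS s).κ.1, fun t => hs t (mem_univ _)⟩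
  obtain ⟨m0, hm0⟩ := choose.{u} 4
  obtain ⟨d0, hd0⟩ := asy c' κ0 k.e m0 hc hc2 hκ0 he
  refine ⟨d0, ?_⟩
  intro V _ N D hd hDS H Bn hBn
  obtain ⟨l, m, hm, hl0, hm0m, hd1, hdm, hml, ha, hL, hK, hκd, hcnt, hdm2⟩ := hd0 D.d hd
  have hlp : (0 : ℝ) < l := by exact_mod_cast hl0
  have hm1 : 0 < m := by rw [hm]; exact Nat.succ_pos _
  have hmp : (0 : ℝ) < m := by exact_mod_cast hm1
  have hdn : (0 : ℝ) ≤ D.d := Nat.cast_nonneg _
  have ha0 : 0 ≤ (D.d : ℝ) ^ (-c') := Real.rpow_nonneg hdn _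
  have hslκ : ∀ n, κ0 ≤ (D.sl n).κ := fun n => by rw [OD.sl, hDS]; exact hκ0s _
  have hsl : ∀ n, 0 < (D.sl n).κ ∧ (D.sl n).κ ≤ 1 ∧ 0 < (D.sl n).ζ ∧
      (D.sl n).ζ ≤ (D.sl n).κ ^ 2 / 10 ^ 6 ∧
      (D.sl n).ζ ≤ k.e * (D.sl n).κ ^ 2 / (16 * 220001 * k.C * (k.M + 1)) := by
    intro n
    rw [OD.sl, hDS]
    have h1 := hS (D.X.sc n)
    exact ⟨h1.κ.1, h1.κ.2, h1.ζ.1, h1.ζ.2.trans (min_le_left _ _),
      h1.ζ.2.trans (min_le_right _ _)⟩
  obtain ⟨Hf, hf1, hf2, hf3⟩ := halves D.Qn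
  set R : Finset V := univ.filter (fun v => InT D.X Ty.B v) with hR
  have hRB : ∀ z ∈ R, InT D.X Ty.B z := fun z hz => (mem_filter.1 hz).2
  set L : V → Finset ℕ := fun v => Hf (D.X.P.pc v) (D.X.P.pt v) (D.X.P.sd v) \ Bn v with hLdef
  have hLQ : ∀ v, ∀ b ∈ L v, b ∈ D.Qn (D.X.P.pc v) (D.X.P.pt v) ∧ b ∉ Bn v := fun v b hb =>
    ⟨hf1 _ _ _ (mem_sdiff.1 hb).1, (mem_sdiff.1 hb).2⟩
  have hLm : ∀ v ∈ R, ∀ b ∈ L v, b / l < m := by
    intro v hv b hb
    have h1 := mem_range.1 (H.sel.Qlt _ (Or.inr (hRB v hv).2) _ (hLQ v b hb).1)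
    rw [hm]
    exact Nat.lt_succ_of_le (Nat.div_le_div_right h1.le)
  set Gr : V → Finset ℕ := fun v => (range m).filter (fun g => (D.sl (D.X.P.pc v)).κ * l / 20 ≤
    (((L v).filter (fun b => b / l = g)).card : ℝ)) with hGr
  have hG : ∀ z ∈ R, (D.sl (D.X.P.pc z)).κ * m / 20 ≤ ((Gr z).card : ℝ) := by
    intro z hz
    obtain ⟨h1, h2, h3, h4, h5⟩ := hsl (D.X.P.pc z)
    refine good (L z) l m D.d _ (hLm z hz) hl0 ?_ hml h1
    refine list_le H Bn hf1 hf2 (hRB z hz) (hBn z (hRB z hz)) ?_ ?_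
    · refine h4.trans (div_le_div_of_nonneg_right ?_ (by norm_num))
      nlinarith
    · exact hκd.trans (mul_le_mul_of_nonneg_right (hslκ _) hdn)
  obtain ⟨f, hfG, hft⟩ := hm0 m R Gr (wq D) (Wq ⌊(D.d : ℝ) ^ (-c') * D.d⌋₊) hm0m
    (fun v _ => filter_subset _ _) (fun v hv => by
      refine card_pos.1 ?_
      have h1 := hG v hv
      have h2 := (hsl (D.X.P.pc v)).1
      have h3 : (0 : ℝ) < ((Gr v).card : ℝ) := lt_of_lt_of_le (by positivity) h1
      exact_mod_cast h3) (fun q z hz => wq_le H q (hRB z hz)) (fun q => by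
      rcases q with v | n | n
      · exact Nat.one_le_pow _ _ hm1
      · exact Nat.one_le_pow _ _ hm1
      · refine le_trans ?_ hdm2
        have h1 : (D.d : ℝ) ^ (-c') ≤ 1 := Real.rpow_le_one_of_one_le_of_nonpos
          (by exact_mod_cast hd1) (by linarith)
        have h2 : (D.d : ℝ) ^ (-c') * D.d ≤ D.d := by
          have := mul_le_mul_of_nonneg_right h1 hdn
          linarith
        have h3 := Nat.floor_le_floor h2
        rwa [Nat.floor_natCast] at h3) (fun z hz => by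
      refine le_trans ?_ hcnt
      exact_mod_cast wq_card H z)
  have hfm : ∀ v ∈ R, f v < m := fun v hv => mem_range.1 (mem_filter.1 (hfG v hv)).1
  set Ls : V → Finset ℕ := fun v => (L v).filter (fun b => b / l = f v) with hLs
  set T : Fin N → ℕ := fun n => ⌈220000 * k.C / (D.sl n).κ ^ 2⌉₊ with hT
  obtain ⟨c, c1, c2, c3⟩ := greedy R Ls (Te D.G D.X) (fun v w h => te_symm h)
    (fun v => te_irr v) (fun b => b / l) f D.X.P.pc T (fun v _ b hb => (mem_filter.1 hb).2) (by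
    intro v hv
    obtain ⟨h1, h2, h3, h4, h5⟩ := hsl (D.X.P.pc v)
    have hTc : 220000 * k.C / (D.sl (D.X.P.pc v)).κ ^ 2 ≤ (T (D.X.P.pc v) : ℝ) := Nat.le_ceil _
    have hTp : 0 < T (D.X.P.pc v) := Nat.ceil_pos.2 (by positivity)
    refine num5 (x := (D.sl (D.X.P.pc v)).κ * l) (by positivity) hTp ?_ ?_
      (mem_filter.1 (hfG v hv)).2
    · rw [card_te]
      refine (hft (Sum.inl v) (f v) (hfm v hv)).trans ?_
      refine le_trans ?_ (num1 hmp hlp hκ0 (hslκ (D.X.P.pc v)) h3.le ha0 hdm h4 ha hL)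
      have h6 := meanT H Gr m hm1 κ0 hκ0 hslκ R hRB hG (hRB v hv)
      have h7 : ((Wq ⌊(D.d : ℝ) ^ (-c') * D.d⌋₊
        (Sum.inl v : V ⊕ (ULift.{u} (Fin N) ⊕ ULift.{u} (Fin N))) : ℕ) : ℝ) = 1 := Nat.cast_one
      rw [h7]
      linarith
    · rw [card_pc R hRB]
      refine (hft (Sum.inr (Sum.inl ⟨D.X.P.pc v⟩)) (f v) (hfm v hv)).trans ?_
      refine le_trans ?_ (num2 hmp hlp hκ0 (hslκ (D.X.P.pc v)) h2 hC hdm hL hTc)
      have h6 := meanP hk H Gr m hm1 κ0 hκ0 hslκ R hG (D.X.P.pc v)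
      have h7 : ((Wq ⌊(D.d : ℝ) ^ (-c') * D.d⌋₊ (Sum.inr (Sum.inl ⟨D.X.P.pc v⟩) :
        V ⊕ (ULift.{u} (Fin N) ⊕ ULift.{u} (Fin N))) : ℕ) : ℝ) = 1 := Nat.cast_one
      rw [h7]
      linarith) R (subset_refl _)
  have cL : ∀ v ∈ R, c v ∈ L v ∧ c v / l = f v := fun v hv => mem_filter.1 (c1 v hv)
  refine ⟨c, ?_, ?_, ?_⟩
  · intro v hv
    exact hLQ v _ (cL v (mem_filter.2 ⟨mem_univ _, hv⟩)).1
  · intro v w hv hw hvw
    have hvR : v ∈ R := mem_filter.2 ⟨mem_univ _, hv⟩
    have hwR : w ∈ R := mem_filter.2 ⟨mem_univ _, hw⟩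
    by_cases hb : (bulk D.G D.X.P).Adj v w
    · have h1 := hb.2.2.2.1
      have h2 := hb.2.2.2.2 hv.2
      have h3 := (mem_sdiff.1 (cL v hvR).1).1
      have h4 := (mem_sdiff.1 (cL w hwR).1).1
      rw [← h1] at h4
      intro hcc
      rw [← hcc] at h4
      by_cases hp : D.X.P.pt v = D.X.P.pt w
      · rw [← hp] at h4
        have h5 := hf3 (D.X.P.pc v) (D.X.P.pt v)
        rcases Bool.eq_false_or_eq_true (D.X.P.sd v) with h6 | h6
        · have h7 : D.X.P.sd w = false := by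
            rcases Bool.eq_false_or_eq_true (D.X.P.sd w) with h8 | h8
            · exact absurd (h6.trans h8.symm) h2
            · exact h8
          rw [h6] at h3
          rw [h7] at h4
          exact disjoint_left.1 h5 h4 h3
        · have h7 : D.X.P.sd w = true := by
            rcases Bool.eq_false_or_eq_true (D.X.P.sd w) with h8 | h8
            · exact h8
            · exact absurd (h6.trans h8.symm) h2
          rw [h6] at h3
          rw [h7] at h4
          exact disjoint_left.1 h5 h3 h4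
      · have h3' := hf1 _ _ _ h3
        have h4' := hf1 _ _ _ h4
        have h5 := H.sel.QQ (D.X.P.pc v) (Or.inr hv.2)
        rcases Bool.eq_false_or_eq_true (D.X.P.pt v) with h6 | h6
        · have h7 : D.X.P.pt w = false := by
            rcases Bool.eq_false_or_eq_true (D.X.P.pt w) with h8 | h8
            · exact absurd (h6.trans h8.symm) hp
            · exact h8
          rw [h6] at h3'
          rw [h7] at h4'
          exact disjoint_left.1 h5 h4' h3'
        · have h7 : D.X.P.pt w = true := by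
            rcases Bool.eq_false_or_eq_true (D.X.P.pt w) with h8 | h8
            · exact h8
            · exact absurd (h6.trans h8.symm) hp
          rw [h6] at h3'
          rw [h7] at h4'
          exact disjoint_left.1 h5 h3' h4'
    · exact c2 v hvR w hwR ⟨⟨hvw, hb⟩, hv, hw⟩
  · intro n b hn
    rcases (pV D.X.P n).eq_empty_or_nonempty with h0 | ⟨v0, hv0⟩
    · rw [h0]
      simp only [inter_empty, card_empty, sum_const_zero, Nat.cast_zero]
      positivity
    · have hv0' := (mem_filter.1 hv0).2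
      obtain ⟨j, hj⟩ := Option.ne_none_iff_exists'.1 (H.pc.cln v0 hv0'.1)
      have e0 : univ.filter (fun w => InT D.X Ty.B w ∧ c w = b) = R.filter (fun w => c w = b) := by
        rw [hR, filter_filter]
      rw [e0, ← sum_filter_add_sum_filter_not (R.filter (fun w => c w = b))
        (fun w => D.X.cq w = some j)]
      push_cast
      obtain ⟨h1, h2, h3, h4, h5⟩ := hsl n
      -- the own cluster
      have p1 : ∑ w ∈ (R.filter (fun w => c w = b)).filter (fun w => D.X.cq w = some j),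
          ((nb D.G w ∩ pV D.X.P n).card : ℝ) ≤ k.e / 16 * D.d := by
        have q1 : ∀ w ∈ (R.filter (fun w => c w = b)).filter (fun w => D.X.cq w = some j),
            ((nb D.G w ∩ pV D.X.P n).card : ℝ) ≤ (D.sl n).ζ * D.d := by
          intro w hw
          have hw1 := mem_filter.1 hw
          have hwR := (mem_filter.1 hw1.1).1
          have e1 : D.X.sc (D.X.P.pc w) = D.X.sc n := by
            rw [← hv0'.2]
            exact H.pc.scq w v0 (hRB w hwR).1 hv0'.1 (hw1.2.trans hj.symm)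
          have e2 := nbK H (hRB w hwR) hn
          have e3 : D.sl (D.X.P.pc w) = D.sl n := by rw [OD.sl, OD.sl, e1]
          rwa [e3] at e2
        have q2 := sum_le_card_nsmul _ _ _ q1
        rw [nsmul_eq_mul] at q2
        have q3 := clCard H R hRB c T c3 (fun p p' h => by
          show ⌈220000 * k.C / (D.sl p).κ ^ 2⌉₊ = ⌈220000 * k.C / (D.sl p').κ ^ 2⌉₊
          rw [OD.sl, OD.sl, h]) hv0'.1 hj b
        rw [hv0'.2] at q3
        rw [filter_filter] at q2 ⊢
        have q4 : ((R.filter (fun w => c w = b ∧ D.X.cq w = some j)).card : ℝ) ≤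
            k.M * T n := by exact_mod_cast q3
        have q5 : (T n : ℝ) < 220000 * k.C / (D.sl n).κ ^ 2 + 1 :=
          Nat.ceil_lt_add_one (by positivity)
        have q6 := num4 h1 h2 hC he hMn h3.le q5 h5
        have q7 : ((R.filter (fun w => c w = b ∧ D.X.cq w = some j)).card : ℝ) *
            ((D.sl n).ζ * D.d) ≤ k.M * T n * ((D.sl n).ζ * D.d) :=
          mul_le_mul_of_nonneg_right q4 (by positivity)
        have q8 := mul_le_mul_of_nonneg_right q6 hdn
        refine q2.trans (q7.trans (le_trans (le_of_eq ?_) q8))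
        ring
      -- the other clusters
      have p2 : ∑ w ∈ (R.filter (fun w => c w = b)).filter (fun w => ¬ D.X.cq w = some j),
          ((nb D.G w ∩ pV D.X.P n).card : ℝ) ≤ k.e / 16 * D.d := by
        by_cases hb : b / l < m
        · have q1 := hft (Sum.inr (Sum.inr ⟨n⟩)) (b / l) hb
          have q2 : ∑ w ∈ (R.filter (fun w => c w = b)).filter (fun w => ¬ D.X.cq w = some j),
              ((nb D.G w ∩ pV D.X.P n).card : ℝ) ≤
              ∑ z ∈ R.filter (fun z => f z = b / l), (wq D (Sum.inr (Sum.inr ⟨n⟩)) z : ℝ) := by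
            have q3 : ∀ w ∈ (R.filter (fun w => c w = b)).filter
                (fun w => ¬ D.X.cq w = some j), ((nb D.G w ∩ pV D.X.P n).card : ℝ) ≤
                (wq D (Sum.inr (Sum.inr ⟨n⟩)) w : ℝ) := by
              intro w hw
              have e2 : wq D (Sum.inr (Sum.inr ⟨n⟩) :
                V ⊕ (ULift.{u} (Fin N) ⊕ ULift.{u} (Fin N))) w = wk D n w := if_pos hn
              rw [e2]
              have hw1 := mem_filter.1 hw
              exact_mod_cast nbW H hv0 (fun h => hw1.2 (h.trans hj))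
            refine (sum_le_sum q3).trans ?_
            refine sum_le_sum_of_subset_of_nonneg ?_ (fun _ _ _ => Nat.cast_nonneg _)
            intro w hw
            have hw1 := mem_filter.1 (mem_filter.1 hw).1
            refine mem_filter.2 ⟨hw1.1, ?_⟩
            rw [← (cL w hw1.1).2, hw1.2]
          refine q2.trans (q1.trans ?_)
          have q4 := meanK H Gr m hm1 κ0 hκ0 hslκ R hG n
          have q5 : ((Wq ⌊(D.d : ℝ) ^ (-c') * D.d⌋₊ (Sum.inr (Sum.inr ⟨n⟩) :
            V ⊕ (ULift.{u} (Fin N) ⊕ ULift.{u} (Fin N))) : ℕ) : ℝ) ≤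
              (D.d : ℝ) ^ (-c') * D.d := Nat.floor_le (by positivity)
          have q6 := num3 (a := (D.d : ℝ) ^ (-c')) (d := D.d) (l := l) (L2 := (Real.log m) ^ 2)
            (e := k.e) hmp hκ0 ha0 hdn hdm (sq_nonneg _) hK q5
          linarith
        · have q1 : (R.filter (fun w => c w = b)).filter (fun w => ¬ D.X.cq w = some j) = ∅ := by
            rw [filter_eq_empty_iff]
            intro w hw _
            have hw1 := mem_filter.1 hw
            apply hb
            rw [← hw1.2, (cL w hw1.1).2]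
            exact hfm w hw1.1
          rw [q1, sum_empty]
          positivity
      linarith

end Pool.Agent.Work.MP_db9399_oc_helper42
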