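import Pool.Agent.Work.MP_db9399_iv_helper38.RLC3

/-!
# MP_db9399, OCB4, block BAS: abstract part (helper42)

`greedy`: greedy choice of colours inside random groups. `choose`: random choice of groups, from `rlc3`.
`asy`: sizes for large `d`.
-/

set_option autoImplicit false

namespace Pool.Agent.Work.MP_db9399_oc_helper42

open Finset Classical
open Pool.Agent.Work.MP_db9399_all (nb)
open Pool.Agent.Work.MP_db9399_iv_helper38

universe u

/-- Greedy choice: `Ls v` = list in the group `f v`; `adj` = conflicts, at most `T p` vertices of the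
piece `p` get the same colour. -/
theorem greedy {V : Type*} {N : ℕ} (R : Finset V) (Ls : V → Finset ℕ) (adj : V → V → Prop)
    (hs : ∀ v w, adj v w → adj w v) (hi : ∀ v, ¬ adj v v) (gr : ℕ → ℕ) (f : V → ℕ) (pc : V → Fin N)
    (T : Fin N → ℕ) (h1 : ∀ v ∈ R, ∀ b ∈ Ls v, gr b = f v)
    (h2 : ∀ v ∈ R, (R.filter (fun w => adj v w ∧ f w = f v)).card * T (pc v) +
      (R.filter (fun w => pc w = pc v ∧ f w = f v)).card < (Ls v).card * T (pc v)) :
    ∀ X : Finset V, X ⊆ R → ∃ c : V → ℕ, (∀ v ∈ X, c v ∈ Ls v) ∧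
      (∀ v ∈ X, ∀ w ∈ X, adj v w → c v ≠ c w) ∧
      ∀ p b, (X.filter (fun v => pc v = p ∧ c v = b)).card ≤ T p := by
  intro X
  induction X using Finset.induction_on with
  | empty =>
    intro _
    exact ⟨fun _ => 0, by simp, by simp, by simp⟩
  | insert v X hv ih =>
    intro hX
    have hXR : X ⊆ R := (subset_insert _ _).trans hX
    have hvR : v ∈ R := hX (mem_insert_self _ _)
    obtain ⟨c, c1, c2, c3⟩ := ih hXR
    set B1 : Finset ℕ := (X.filter (fun w => adj v w ∧ f w = f v)).image c with hB1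
    set B2 : Finset ℕ := (Ls v).filter
      (fun b => T (pc v) ≤ (X.filter (fun w => pc w = pc v ∧ c w = b)).card) with hB2
    have e1 : B1.card ≤ (R.filter (fun w => adj v w ∧ f w = f v)).card :=
      card_image_le.trans (card_le_card (filter_subset_filter _ hXR))
    have e2 : B2.card * T (pc v) ≤ (R.filter (fun w => pc w = pc v ∧ f w = f v)).card := by
      have e3 : B2.card * T (pc v) ≤
          ∑ b ∈ B2, (X.filter (fun w => pc w = pc v ∧ c w = b)).card := by
        rw [← smul_eq_mul]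
        exact card_nsmul_le_sum B2 _ _ (fun b hb => (mem_filter.1 hb).2)
      refine e3.trans ?_
      rw [← card_biUnion]
      · refine card_le_card ?_
        intro w hw
        rw [mem_biUnion] at hw
        obtain ⟨b, hb, hw⟩ := hw
        rw [mem_filter] at hw
        refine mem_filter.2 ⟨hXR hw.1, hw.2.1, ?_⟩
        have e4 := h1 w (hXR hw.1) (c w) (c1 w hw.1)
        have e5 := h1 v hvR b (mem_filter.1 hb).1
        rw [← e4, hw.2.2, e5]
      · intro b _ b' _ hbb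
        refine disjoint_left.2 ?_
        intro w hw hw'
        exact hbb ((mem_filter.1 hw).2.2.symm.trans (mem_filter.1 hw').2.2)
    obtain ⟨b, hb, hb'⟩ : ∃ b ∈ Ls v, b ∉ B1 ∪ B2 := by
      by_contra hcon
      push Not at hcon
      have e6 : (Ls v).card ≤ (B1 ∪ B2).card := card_le_card hcon
      have e7 := card_union_le B1 B2
      have e8 := h2 v hvR
      have e9 : (Ls v).card * T (pc v) ≤ (B1.card + B2.card) * T (pc v) :=
        Nat.mul_le_mul_right _ (e6.trans e7)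
      rw [add_mul] at e9
      have e10 : B1.card * T (pc v) ≤
          (R.filter (fun w => adj v w ∧ f w = f v)).card * T (pc v) :=
        Nat.mul_le_mul_right _ e1
      omega
    rw [mem_union, not_or] at hb'
    refine ⟨Function.update c v b, ?_, ?_, ?_⟩
    · intro w hw
      by_cases hwv : w = v
      · rw [hwv, Function.update_self]
        exact hb
      · rw [Function.update_of_ne hwv]
        exact c1 w ((mem_insert.1 hw).resolve_left hwv)
    · have key : ∀ w ∈ X, adj v w → b ≠ c w := by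
        intro w hw ha hbc
        by_cases hf : f w = f v
        · exact hb'.1 (mem_image.2 ⟨w, mem_filter.2 ⟨hw, ha, hf⟩, hbc.symm⟩)
        · apply hf
          rw [← h1 w (hXR hw) (c w) (c1 w hw), ← h1 v hvR b hb, hbc]
      intro w hw z hz ha
      by_cases hwv : w = v
      · by_cases hzv : z = v
        · rw [hwv, hzv] at ha
          exact absurd ha (hi v)
        · rw [hwv, Function.update_self, Function.update_of_ne hzv]
          rw [hwv] at ha
          exact key z ((mem_insert.1 hz).resolve_left hzv) ha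
      · by_cases hzv : z = v
        · rw [hzv, Function.update_self, Function.update_of_ne hwv]
          rw [hzv] at ha
          exact (key w ((mem_insert.1 hw).resolve_left hwv) (hs _ _ ha)).symm
        · rw [Function.update_of_ne hzv, Function.update_of_ne hwv]
          exact c2 w ((mem_insert.1 hw).resolve_left hwv) z ((mem_insert.1 hz).resolve_left hzv) ha
    · intro p b'
      have e11 : X.filter (fun w => pc w = p ∧ Function.update c v b w = b') =
          X.filter (fun w => pc w = p ∧ c w = b') := by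
        refine filter_congr fun w hw => ?_
        have hwv : w ≠ v := fun h => hv (by rw [← h]; exact hw)
        rw [Function.update_of_ne hwv]
      rw [filter_insert]
      split_ifs with h
      · rw [Function.update_self] at h
        refine (card_insert_le _ _).trans ?_
        rw [e11]
        obtain ⟨h3, h4⟩ := h
        rw [← h3, ← h4]
        have e12 : ¬ T (pc v) ≤ (X.filter (fun w => pc w = pc v ∧ c w = b)).card :=
          fun h5 => hb'.2 (mem_filter.2 ⟨hb, h5⟩)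
        omega
      · rw [e11]
        exact c3 p b'

/-- Random choice of groups `f v ∈ G v`; tests `(q, g)`. -/
theorem choose (A : ℝ) : ∃ m0 : ℕ, ∀ {V τ : Type u} [Fintype V] [Fintype τ] (m : ℕ)
    (R : Finset V) (G : V → Finset ℕ) (w : τ → V → ℕ) (W : τ → ℕ), m0 ≤ m →
    (∀ v ∈ R, G v ⊆ range m) → (∀ v ∈ R, (G v).Nonempty) → (∀ q, ∀ z ∈ R, w q z ≤ W q) →
    (∀ q, W q ≤ m ^ 2) →
    (∀ z ∈ R, ((univ.filter fun q => w q z ≠ 0).card : ℝ) ≤ (m : ℝ) ^ A) →
    ∃ f : V → ℕ, (∀ v ∈ R, f v ∈ G v) ∧ ∀ q g, g < m →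
      ∑ z ∈ R.filter (fun z => f z = g), (w q z : ℝ) ≤
        108 * (∑ z ∈ R, (w q z : ℝ) / (G z).card) + 108 * W q * (Real.log m) ^ 2 := by
  obtain ⟨d0, hd0⟩ := rlc3.{u} (A + 1)
  refine ⟨max d0 1, ?_⟩
  intro V τ _ _ m R G w W hm hG hG0 hw hW hS
  have hm0 : d0 ≤ m := (le_max_left _ _).trans hm
  have hm1 : 1 ≤ m := (le_max_right _ _).trans hm
  have hm1' : (1 : ℝ) ≤ m := by exact_mod_cast hm1
  have hmp : (0 : ℝ) < m := by linarith
  set r : V → ℕ := fun z => m / (G z).card + 1 with hr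
  set L : V → Finset (ULift.{u} (ℕ × ℕ)) := fun z =>
    (G z ×ˢ range (r z)).map Equiv.ulift.symm.toEmbedding with hL
  have hLc : ∀ z, (L z).card = (G z).card * r z := by
    intro z
    rw [hL]
    simp only [card_map, card_product, card_range]
  have hGp : ∀ z ∈ R, 0 < (G z).card := fun z hz => card_pos.2 (hG0 z hz)
  have hGm : ∀ z ∈ R, (G z).card ≤ m := fun z hz => by
    have := card_le_card (hG z hz)
    rwa [card_range] at this
  have hmem : ∀ z, ∀ y ∈ L z, y.down.1 ∈ G z := by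
    intro z y hy
    rw [hL] at hy
    simp only [mem_map, mem_product] at hy
    obtain ⟨a, ⟨ha, _⟩, rfl⟩ := hy
    exact ha
  obtain ⟨f, hf1, _, hf3⟩ := @hd0 V (τ × ULift.{u} (Fin m)) PEmpty (ULift.{u} (ℕ × ℕ)) PUnit
    _ _ _ ⟨⟨(0, 0)⟩⟩ m R (fun k => k.elim) (fun k => k.elim) L
    (fun q z y => if y.down.1 = (q.2.down : ℕ) then w q.1 z else 0) (fun q => W q.1) hm0 (by
      intro z hz
      rw [hLc]
      have e1 : m < (G z).card * r z := Nat.lt_mul_div_succ m (hGp z hz)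
      have e2 : (m : ℝ) < ((G z).card * r z : ℕ) := by exact_mod_cast e1
      linarith) (fun k => k.elim) (by
      intro z _
      rw [Finset.univ_eq_empty, sum_empty]
      positivity) (by
      intro q z hz y _
      split_ifs
      · exact hw q.1 z hz
      · exact Nat.zero_le _) (fun q => hW q.1) (by
      intro z hz
      have e1 : (univ.filter fun q : τ × ULift.{u} (Fin m) => ∃ y ∈ L z,
          (if y.down.1 = (q.2.down : ℕ) then w q.1 z else 0) ≠ 0) ⊆
          (univ.filter fun q => w q z ≠ 0) ×ˢ univ := by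
        intro q hq
        obtain ⟨y, _, hy⟩ := (mem_filter.1 hq).2
        refine mem_product.2 ⟨mem_filter.2 ⟨mem_univ _, ?_⟩, mem_univ _⟩
        intro h0
        apply hy
        rw [h0]
        simp
      have e2 := card_le_card e1
      rw [card_product, card_univ, Fintype.card_ulift, Fintype.card_fin] at e2
      have e3 : ((univ.filter fun q : τ × ULift.{u} (Fin m) => ∃ y ∈ L z,
          (if y.down.1 = (q.2.down : ℕ) then w q.1 z else 0) ≠ 0).card : ℝ) ≤
          ((univ.filter fun q => w q z ≠ 0).card : ℝ) * m := by exact_mod_cast e2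
      refine e3.trans ?_
      rw [Real.rpow_add hmp, Real.rpow_one]
      exact mul_le_mul_of_nonneg_right (hS z hz) hmp.le)
  refine ⟨fun z => (f z).down.1, fun z hz => hmem z _ (hf1 z hz), ?_⟩
  intro q g hg
  have h1 := hf3 (q, ⟨⟨g, hg⟩⟩)
  have e1 : ∑ z ∈ R.filter (fun z => (f z).down.1 = g), (w q z : ℝ) =
      ∑ z ∈ R, ((if (f z).down.1 = g then w q z else 0 : ℕ) : ℝ) := by
    rw [sum_filter]
    refine sum_congr rfl fun z _ => ?_
    split_ifs <;> simp
  have e2 : ∀ z ∈ R, ∑ y ∈ L z, ((if y.down.1 = g then w q z else 0 : ℕ) : ℝ) ≤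
      2 * m * ((w q z : ℝ) / (G z).card) := by
    intro z hz
    have e3 : ∑ y ∈ L z, ((if y.down.1 = g then w q z else 0 : ℕ) : ℝ) =
        ∑ a ∈ G z ×ˢ range (r z), ((if a.1 = g then w q z else 0 : ℕ) : ℝ) := by
      rw [hL]
      simp only [sum_map]
      rfl
    rw [e3, sum_product]
    have e4 : ∑ x ∈ G z, ∑ _y ∈ range (r z), ((if x = g then w q z else 0 : ℕ) : ℝ) ≤
        (r z : ℝ) * w q z := by
      have e5 : ∀ x ∈ G z, ∑ _y ∈ range (r z), ((if x = g then w q z else 0 : ℕ) : ℝ) =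
          if x = g then (r z : ℝ) * w q z else 0 := by
        intro x _
        rw [sum_const, card_range, nsmul_eq_mul]
        split_ifs <;> simp
      rw [sum_congr rfl e5, sum_ite_eq']
      split_ifs
      · exact le_refl _
      · positivity
    refine e4.trans ?_
    have hGz : (0 : ℝ) < (G z).card := by exact_mod_cast hGp z hz
    have e6 : (r z : ℝ) ≤ 2 * m / (G z).card := by
      rw [hr]
      push_cast
      have e7 : ((m / (G z).card : ℕ) : ℝ) ≤ (m : ℝ) / (G z).card := Nat.cast_div_le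
      have e8 : (1 : ℝ) ≤ (m : ℝ) / (G z).card := by
        rw [le_div_iff₀ hGz, one_mul]
        exact_mod_cast hGm z hz
      calc _ ≤ (m : ℝ) / (G z).card + (m : ℝ) / (G z).card := by linarith
        _ = _ := by ring
    calc (r z : ℝ) * w q z ≤ 2 * m / (G z).card * w q z :=
          mul_le_mul_of_nonneg_right e6 (Nat.cast_nonneg _)
      _ = _ := by ring
  calc _ = ∑ z ∈ R, ((if (f z).down.1 = g then w q z else 0 : ℕ) : ℝ) := e1
    _ ≤ _ := h1
    _ ≤ _ := by
      refine add_le_add ?_ (le_refl _)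
      have e9 : ∑ z ∈ R, ∑ y ∈ L z, ((if y.down.1 = g then w q z else 0 : ℕ) : ℝ) ≤
          ∑ z ∈ R, 2 * m * ((w q z : ℝ) / (G z).card) := sum_le_sum e2
      rw [← mul_sum] at e9
      have e10 : ∀ y : ℝ, 54 / (m : ℝ) * (2 * m * y) = 108 * y := by
        intro y
        have e11 : 54 / (m : ℝ) * (2 * m * y) = 108 * y * ((m : ℝ) / m) := by ring
        rw [e11, div_self hmp.ne', mul_one]
      rw [← e10]
      exact mul_le_mul_of_nonneg_left e9 (by positivity)

theorem asy0 {y : ℝ} (h : 2 ≤ y) : 4 ≤ y ^ 2 := by nlinarith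

theorem asy1 {y : ℝ} (h : 2 ≤ y) : y ≤ y ^ 2 := by nlinarith

theorem asy2 {y : ℝ} (h : 2 ≤ y) : y ^ 2 ≤ y ^ 4 :=
  pow_le_pow_right₀ (by linarith) (by norm_num)

theorem asy3 {v : ℝ} (h : 2 ≤ v) : v ≤ v ^ 3 / 2 + 1 := by
  have h1 : 4 ≤ v ^ 2 := by nlinarith
  have h2 : v ^ 3 = v * v ^ 2 := by ring
  nlinarith

theorem asy4 {v : ℝ} (h : 2 ≤ v) : 8 * v ≤ v ^ 4 := by
  have h1 : (2 : ℝ) ^ 3 ≤ v ^ 3 := pow_le_pow_left₀ (by norm_num) h 3
  have h2 : v ^ 4 = v ^ 3 * v := by ring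
  rw [h2]
  exact mul_le_mul_of_nonneg_right (by linarith) (by linarith)

/-- sizes for large `d`: `l` length of the groups, `m` their number -/
theorem asy (c' κ0 e : ℝ) (m0 : ℕ) (hc : 0 < c') (hc2 : c' ≤ 1 / 2) (hκ : 0 < κ0)
    (he : 0 < e) : ∃ d0 : ℕ, ∀ d : ℕ, d0 ≤ d → ∃ l m : ℕ, m = (d + 2) / l + 1 ∧
      0 < l ∧ m0 ≤ m ∧ 1 ≤ d ∧ (d : ℝ) ≤ m * l ∧ (m * l : ℝ) ≤ 2 * d ∧
      (d : ℝ) ^ (-c') ≤ κ0 ^ 2 / 10 ^ 6 ∧ 108 * (Real.log m) ^ 2 ≤ κ0 * l / 400 ∧
      2160 / κ0 * l * (d : ℝ) ^ (-c') + 108 * (d : ℝ) ^ (-c') * (Real.log m) ^ 2 ≤ e / 16 ∧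
      1000 ≤ κ0 * d ∧ (2 * d + 1 : ℝ) ≤ (m : ℝ) ^ (4 : ℝ) ∧ d ≤ m ^ 2 := by
  set Lc : ℝ := 64 / c' ^ 2 with hLc
  have hLcp : 0 < Lc := by positivity
  set X : ℝ := 2 + 43200 * Lc / κ0 + 138240 / (κ0 * e) + 3456 * Lc / e + 10 ^ 6 / κ0 ^ 2 with hX
  have ha1 : 0 < 43200 * Lc / κ0 := by positivity
  have ha2 : 0 < 138240 / (κ0 * e) := by positivity
  have ha3 : 0 < 3456 * Lc / e := by positivity
  have ha4 : 0 < 10 ^ 6 / κ0 ^ 2 := by positivity
  have hev : ∀ᶠ d : ℕ in Filter.atTop, X ≤ (d : ℝ) ^ (c' / 4) ∧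
      2 * (m0 : ℝ) + 2 ≤ (d : ℝ) ^ ((1 : ℝ) / 4) ∧ 1000 / κ0 ≤ (d : ℝ) ∧ (1 : ℝ) ≤ d := by
    have h1 : Filter.Tendsto (fun d : ℕ => (d : ℝ) ^ (c' / 4)) Filter.atTop Filter.atTop :=
      (tendsto_rpow_atTop (by positivity)).comp tendsto_natCast_atTop_atTop
    have h2 : Filter.Tendsto (fun d : ℕ => (d : ℝ) ^ ((1 : ℝ) / 4)) Filter.atTop Filter.atTop :=
      (tendsto_rpow_atTop (by norm_num)).comp tendsto_natCast_atTop_atTop
    exact (h1.eventually_ge_atTop X).and ((h2.eventually_ge_atTop _).and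
      ((tendsto_natCast_atTop_atTop.eventually_ge_atTop _).and
        (tendsto_natCast_atTop_atTop.eventually_ge_atTop _)))
  obtain ⟨d0, hd0⟩ := Filter.eventually_atTop.1 hev
  refine ⟨d0, fun d hd => ?_⟩
  obtain ⟨h1, h2, h3, h4⟩ := hd0 d hd
  have hdp : (0 : ℝ) < d := by linarith
  set y : ℝ := (d : ℝ) ^ (c' / 4) with hy
  set v : ℝ := (d : ℝ) ^ ((1 : ℝ) / 4) with hv
  have hyX : X ≤ y := h1
  have hy2 : 2 ≤ y := by linarith
  have hyp : 0 < y := by linarith
  have hm0n : (0 : ℝ) ≤ m0 := Nat.cast_nonneg _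
  have hv2 : 2 ≤ v := by linarith
  have hv4 : v ^ 4 = d := by
    rw [hv, ← Real.rpow_natCast, ← Real.rpow_mul hdp.le]
    norm_num
  have hy4 : (d : ℝ) ^ (-c') = 1 / y ^ 4 := by
    rw [hy, ← Real.rpow_natCast, ← Real.rpow_mul hdp.le, Real.rpow_neg hdp.le, one_div]
    congr 2
    push_cast
    ring
  have hyv : y ^ 2 ≤ v := by
    rw [hy, hv, ← Real.rpow_natCast, ← Real.rpow_mul hdp.le]
    refine Real.rpow_le_rpow_of_exponent_le h4 ?_
    push_cast
    linarith
  set l : ℕ := ⌈y ^ 2⌉₊ with hl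
  have hl1 : y ^ 2 ≤ l := Nat.le_ceil _
  have hl2 : (l : ℝ) < y ^ 2 + 1 := Nat.ceil_lt_add_one (by positivity)
  have hyy : 4 ≤ y ^ 2 := asy0 hy2
  have hl4 : (4 : ℝ) ≤ l := by linarith
  have hl4' : 4 ≤ l := by exact_mod_cast hl4
  have hlv : (l : ℝ) ≤ 2 * v := by linarith
  have hl0 : 0 < l := by omega
  have hlp : (0 : ℝ) < l := by linarith
  have hly : (l : ℝ) ≤ 2 * y ^ 2 := by linarith
  set m : ℕ := (d + 2) / l + 1 with hm
  have hml : d + 2 < m * l := by
    have := Nat.lt_mul_div_succ (d + 2) hl0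
    rw [hm, mul_comm]
    exact this
  have hml' : m * l ≤ d + 2 + l := by
    rw [hm, add_mul, one_mul]
    exact Nat.add_le_add_right (Nat.div_mul_le_self _ _) _
  have hmlr : (d : ℝ) + 2 < m * l := by exact_mod_cast hml
  have hmlr' : (m : ℝ) * l ≤ d + 2 + l := by exact_mod_cast hml'
  have hvd : 8 * v ≤ d := by
    rw [← hv4]
    exact asy4 hv2
  have hmd : m ≤ d := by
    have h5 : (d + 2) / l ≤ (d + 2) / 4 := Nat.div_le_div_left hl4' (by norm_num)
    have h6 : (16 : ℝ) ≤ d := by linarith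
    have h7 : 16 ≤ d := by exact_mod_cast h6
    omega
  have hmv : v ^ 3 / 2 ≤ m := by
    have h5 : v ^ 4 ≤ m * (2 * v) := by
      rw [hv4]
      have h6 : (m : ℝ) * l ≤ m * (2 * v) := mul_le_mul_of_nonneg_left hlv (Nat.cast_nonneg _)
      linarith
    have h7 : v ^ 3 * v ≤ (2 * m) * v := by
      have e1 : v ^ 3 * v = v ^ 4 := by ring
      have e2 : 2 * (m : ℝ) * v = m * (2 * v) := by ring
      rw [e1, e2]
      exact h5
    have h8 := le_of_mul_le_mul_right h7 (by linarith)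
    linarith
  have hm1 : 1 ≤ m := Nat.le_add_left 1 _
  have hm1' : (1 : ℝ) ≤ m := by exact_mod_cast hm1
  have hlog0 : 0 ≤ Real.log m := Real.log_nonneg hm1'
  have hlog1 : Real.log m ≤ Real.log d := Real.log_le_log (by linarith) (by exact_mod_cast hmd)
  have hlog2 : Real.log d ≤ (d : ℝ) ^ (c' / 8) / (c' / 8) :=
    Real.log_le_rpow_div hdp.le (by positivity)
  have hlog : (Real.log m) ^ 2 ≤ Lc * y := by
    have h5 : (Real.log m) ^ 2 ≤ ((d : ℝ) ^ (c' / 8) / (c' / 8)) ^ 2 :=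
      pow_le_pow_left₀ hlog0 (hlog1.trans hlog2) 2
    refine h5.trans (le_of_eq ?_)
    have h6 : ((d : ℝ) ^ (c' / 8)) ^ 2 = y := by
      rw [hy, ← Real.rpow_natCast, ← Real.rpow_mul hdp.le]
      congr 1
      push_cast
      ring
    rw [div_pow, h6, hLc]
    field_simp
    ring
  have hyX1 : 43200 * Lc / κ0 ≤ y := by linarith
  have hyX2 : 138240 / (κ0 * e) ≤ y := by linarith
  have hyX3 : 3456 * Lc / e ≤ y := by linarith
  have hyX4 : 10 ^ 6 / κ0 ^ 2 ≤ y := by linarith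
  rw [div_le_iff₀ (by positivity)] at hyX1 hyX2 hyX3 hyX4
  have hy1 : y ≤ y ^ 2 := asy1 hy2
  have hy3 : y ^ 2 ≤ y ^ 4 := asy2 hy2
  refine ⟨l, m, rfl, hl0, ?_, by exact_mod_cast h4, by linarith, ?_, ?_, ?_, ?_, ?_, ?_, ?_⟩
  · have h5 : (m0 : ℝ) ≤ m := by
      have h6 := asy3 hv2
      linarith
    exact_mod_cast h5
  · linarith
  · rw [hy4, div_le_div_iff₀ (by positivity) (by norm_num), one_mul]
    refine hyX4.trans ?_
    rw [mul_comm]
    exact mul_le_mul_of_nonneg_left (hy1.trans hy3) (by positivity)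
  · have h5 : 108 * (Real.log m) ^ 2 ≤ 108 * (Lc * y) := by linarith
    have h6 : κ0 * y ^ 2 / 400 ≤ κ0 * l / 400 :=
      div_le_div_of_nonneg_right (mul_le_mul_of_nonneg_left hl1 hκ.le) (by norm_num)
    refine h5.trans (le_trans ?_ h6)
    rw [le_div_iff₀ (by norm_num)]
    have h7 : 43200 * Lc * y ≤ y * κ0 * y := mul_le_mul_of_nonneg_right hyX1 hyp.le
    have h8 : y * κ0 * y = κ0 * y ^ 2 := by ring
    rw [h8] at h7
    linarith
  · rw [hy4]
    have h5 : 2160 / κ0 * l * (1 / y ^ 4) ≤ e / 32 := by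
      have h6 : 2160 / κ0 * l * (1 / y ^ 4) = 2160 * l / (κ0 * y ^ 4) := by
        field_simp
      rw [h6, div_le_div_iff₀ (by positivity) (by norm_num)]
      have h7 : 138240 * y ^ 2 ≤ y * (κ0 * e) * y ^ 2 :=
        mul_le_mul_of_nonneg_right hyX2 (by positivity)
      have h8 : y * (κ0 * e) * y ^ 2 ≤ e * (κ0 * y ^ 4) := by
        have h9 : y * (κ0 * e) * y ^ 2 = (e * κ0 * y ^ 2) * y := by ring
        have h10 : e * (κ0 * y ^ 4) = (e * κ0 * y ^ 2) * y ^ 2 := by ring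
        rw [h9, h10]
        exact mul_le_mul_of_nonneg_left hy1 (by positivity)
      have h11 : 2160 * (l : ℝ) * 32 ≤ 138240 * y ^ 2 := by linarith
      linarith
    have h6 : 108 * (1 / y ^ 4) * (Real.log m) ^ 2 ≤ e / 32 := by
      have h7 : 108 * (1 / y ^ 4) * (Real.log m) ^ 2 ≤ 108 * (1 / y ^ 4) * (Lc * y) :=
        mul_le_mul_of_nonneg_left hlog (by positivity)
      refine h7.trans ?_
      have h8 : 108 * (1 / y ^ 4) * (Lc * y) = 108 * Lc * y / y ^ 4 := by
        field_simp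
      rw [h8, div_le_div_iff₀ (by positivity) (by norm_num)]
      have h9 : 3456 * Lc * y ≤ y * e * y := mul_le_mul_of_nonneg_right hyX3 hyp.le
      have h10 : y * e * y ≤ e * y ^ 4 := by
        have h11 : y * e * y = e * y ^ 2 := by ring
        rw [h11]
        exact mul_le_mul_of_nonneg_left hy3 he.le
      linarith
    linarith
  · rw [div_le_iff₀ hκ] at h3
    linarith
  · have h5 : ((m : ℝ) ^ (4 : ℝ)) = (m : ℝ) ^ 4 := by
      rw [← Real.rpow_natCast]
      norm_num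
    rw [h5]
    have h6 : (v ^ 3 / 2) ^ 4 ≤ (m : ℝ) ^ 4 := pow_le_pow_left₀ (by positivity) hmv 4
    have h7 : (v ^ 3 / 2) ^ 4 = v ^ 4 * v ^ 8 / 16 := by ring
    have h8 : (2 : ℝ) ^ 8 ≤ v ^ 8 := pow_le_pow_left₀ (by norm_num) hv2 8
    rw [h7, hv4] at h6
    have h9 : (d : ℝ) * 2 ^ 8 ≤ d * v ^ 8 := mul_le_mul_of_nonneg_left h8 hdp.le
    norm_num at h9
    linarith
  · have h6 : (v ^ 3 / 2) ^ 2 ≤ (m : ℝ) ^ 2 := pow_le_pow_left₀ (by positivity) hmv 2
    have h7 : (v ^ 3 / 2) ^ 2 = v ^ 4 * v ^ 2 / 4 := by ring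
    have h8 : (2 : ℝ) ^ 2 ≤ v ^ 2 := pow_le_pow_left₀ (by norm_num) hv2 2
    rw [h7, hv4] at h6
    have h10 : (d : ℝ) * 2 ^ 2 ≤ d * v ^ 2 := mul_le_mul_of_nonneg_left h8 hdp.le
    have h9 : (d : ℝ) ≤ (m : ℝ) ^ 2 := by
      norm_num at h10
      linarith
    exact_mod_cast h9

end Pool.Agent.Work.MP_db9399_oc_helper42
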