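import Pool.Agent.Work.MP_db9399_oc.Interface
import Pool.Agent.Work.MP_db9399_oc_helper42.BAS0

/-!
# MP_db9399, OCB4, block BAS (helper42)

`stmt_BAS : Stmt_BAS`, without hypotheses (the random choice of the groups is by `rlc3`).
-/

set_option autoImplicit false

namespace Pool.Agent.Work.MP_db9399_oc_helper42

open Finset Classical
open Pool.Agent.Work.MP_db9399_all (nb)
open Pool.Agent.Work.MP_db9399_da hiding qV
open Pool.Agent.Work.MP_db9399_xf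
open Pool.Agent.Work.MP_db9399_x4
open Pool.Agent.Work.MP_db9399_oc

universe u

/-- many groups contain many colours of the list -/
theorem good (L : Finset ℕ) (l m d : ℕ) (κ : ℝ) (hL : ∀ b ∈ L, b / l < m) (hl : 0 < l)
    (hLc : κ * d / 5 ≤ (L.card : ℝ)) (hml : (m * l : ℝ) ≤ 2 * d) (hκ : 0 < κ) :
    κ * m / 20 ≤ (((range m).filter
      (fun g => κ * l / 20 ≤ ((L.filter (fun b => b / l = g)).card : ℝ))).card : ℝ) := by
  set A := (range m).filter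
    (fun g => κ * l / 20 ≤ ((L.filter (fun b => b / l = g)).card : ℝ)) with hA
  have hlp : (0 : ℝ) < l := by exact_mod_cast hl
  have e1 : L.card = ∑ g ∈ range m, (L.filter (fun b => b / l = g)).card :=
    card_eq_sum_card_fiberwise (fun b hb => mem_coe.2 (mem_range.2 (hL b hb)))
  have e2 : ∀ g, (L.filter (fun b => b / l = g)).card ≤ l := by
    intro g
    have h1 : L.filter (fun b => b / l = g) ⊆ Ico (g * l) (g * l + l) := by
      intro b hb
      have h2 := (mem_filter.1 hb).2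
      rw [mem_Ico]
      have h3 := Nat.div_add_mod b l
      have h4 := Nat.mod_lt b hl
      rw [h2, mul_comm] at h3
      omega
    have h5 := card_le_card h1
    rw [Nat.card_Ico] at h5
    omega
  have e3 : (L.card : ℝ) = ∑ g ∈ range m, ((L.filter (fun b => b / l = g)).card : ℝ) := by
    exact_mod_cast e1
  have e4 : ∑ g ∈ range m, ((L.filter (fun b => b / l = g)).card : ℝ) ≤
      ∑ g ∈ range m, ((if g ∈ A then (l : ℝ) else 0) + κ * l / 20) := by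
    refine sum_le_sum fun g hg => ?_
    split_ifs with h
    · have h1 : ((L.filter (fun b => b / l = g)).card : ℝ) ≤ l := by exact_mod_cast e2 g
      have h2 : 0 ≤ κ * l / 20 := by positivity
      linarith
    · have h1 : ¬ κ * l / 20 ≤ ((L.filter (fun b => b / l = g)).card : ℝ) := fun h2 =>
        h (mem_filter.2 ⟨hg, h2⟩)
      linarith
  rw [sum_add_distrib, sum_const, card_range, nsmul_eq_mul] at e4
  have e5 : ∑ g ∈ range m, (if g ∈ A then (l : ℝ) else 0) = A.card * l := by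
    rw [← sum_filter, filter_mem_eq_inter, inter_eq_right.2 (filter_subset _ _), sum_const,
      nsmul_eq_mul]
  rw [e5] at e4
  have e6 : κ * (m * l) ≤ κ * (2 * d) := mul_le_mul_of_nonneg_left hml hκ.le
  have e7 : κ * m / 20 * l ≤ A.card * l := by
    have e8 : κ * m / 20 * l = κ * (m * l) / 20 := by ring
    have e9 : (m : ℝ) * (κ * l / 20) = κ * (m * l) / 20 := by ring
    rw [e9] at e4
    rw [e8]
    linarith
  exact le_of_mul_le_mul_right e7 hlp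

/-- half of a palette for every side -/
theorem halves {N : ℕ} (Q : Fin N → Bool → Finset ℕ) :
    ∃ Hf : Fin N → Bool → Bool → Finset ℕ, (∀ n i β, Hf n i β ⊆ Q n i) ∧
      (∀ n i β, (Q n i).card ≤ 2 * (Hf n i β).card + 1) ∧
      ∀ n i, Disjoint (Hf n i false) (Hf n i true) := by
  have h1 : ∀ n i, ∃ t ⊆ Q n i, t.card = (Q n i).card / 2 := fun n i =>
    exists_subset_card_eq (Nat.div_le_self _ _)
  choose hf h2 h3 using h1
  refine ⟨fun n i β => if β = true then hf n i else Q n i \ hf n i, ?_, ?_, ?_⟩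
  · intro n i β
    cases β
    · exact sdiff_subset
    · exact h2 n i
  · intro n i β
    have h4 := card_sdiff_add_card_eq_card (h2 n i)
    have h5 := h3 n i
    cases β
    · show (Q n i).card ≤ 2 * (Q n i \ hf n i).card + 1
      omega
    · show (Q n i).card ≤ 2 * (hf n i).card + 1
      omega
  · intro n i
    simp only [Bool.false_eq_true, if_false, if_true]
    exact sdiff_disjoint

section
variable {V : Type u} [Fintype V] {N J : ℕ} {k : Con} {c' : ℝ} {D : OD V N J}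

theorem nHv (H : Hyp k c' D) {v : V} (hv : InT D.X Ty.B v) : v ∉ D.X.Hv := by
  intro h
  have h1 := (H.hv v h).2
  rw [hv.2] at h1
  exact absurd h1 (by decide)

theorem teC (H : Hyp k c' D) {v : V} (hv : InT D.X Ty.B v) :
    ((univ.filter (fun w => Te D.G D.X v w)).card : ℝ) ≤ (D.sl (D.X.P.pc v)).ζ * D.d := by
  refine le_trans ?_ (H.pc.thd v (Or.inr hv))
  have h1 : univ.filter (fun w => Te D.G D.X v w) ⊆ nb (thin D.G D.X.P) v := by
    intro w hw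
    exact mem_filter.2 ⟨mem_univ _, (mem_filter.1 hw).2.1⟩
  exact_mod_cast card_le_card h1

theorem teO (H : Hyp k c' D) {v : V} (hv : InT D.X Ty.B v) :
    ((univ.filter (fun w => Te D.G D.X v w ∧ D.X.cq w ≠ D.X.cq v)).card : ℝ) ≤
      (D.d : ℝ) ^ (-c') * D.d := by
  refine le_trans ?_ (H.pc.out v hv.1 (nHv H hv))
  have h1 : univ.filter (fun w => Te D.G D.X v w ∧ D.X.cq w ≠ D.X.cq v) ⊆
      (nb D.G v).filter (fun w => D.X.cq w ≠ D.X.cq v) := by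
    intro w hw
    have h2 := (mem_filter.1 hw).2
    exact mem_filter.2 ⟨mem_filter.2 ⟨mem_univ _, h2.1.1.1⟩, h2.2⟩
  exact_mod_cast card_le_card h1

theorem pVc (hk : k.Ok) (H : Hyp k c' D) (n : Fin N) :
    ((pV D.X.P n).card : ℝ) ≤ k.C * D.d := by
  rcases (pV D.X.P n).eq_empty_or_nonempty with h | ⟨v, hv⟩
  · rw [h, card_empty, Nat.cast_zero]
    have := hk.C1
    positivity
  · have hv' := (mem_filter.1 hv).2
    obtain ⟨j, hj⟩ := Option.ne_none_iff_exists'.1 (H.pc.cln v hv'.1)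
    refine le_trans ?_ (H.pc.clc j)
    have h1 : pV D.X.P n ⊆ univ.filter (fun v => D.X.cq v = some j) := by
      intro w hw
      have hw' := (mem_filter.1 hw).2
      refine mem_filter.2 ⟨mem_univ _, ?_⟩
      rw [← hj]
      exact H.pc.clp w v hw'.1 hv'.1 (hw'.2.trans hv'.2.symm)
    exact_mod_cast card_le_card h1

/-- number of the neighbours of `z` in the piece `n` in another cluster -/
noncomputable def wk (D : OD V N J) (n : Fin N) (z : V) : ℕ :=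
  ((pV D.X.P n).filter (fun v => D.G.Adj z v ∧ D.X.cq z ≠ D.X.cq v)).card

theorem wk_sum (H : Hyp k c' D) (n : Fin N) (R : Finset V) :
    ∑ z ∈ R, (wk D n z : ℝ) ≤ (D.d : ℝ) ^ (-c') * (D.d : ℝ) ^ 2 := by
  refine le_trans ?_ (H.pc.xs n)
  have h1 : ∑ z ∈ R, wk D n z ≤
      ∑ v ∈ pV D.X.P n, ((nb D.G v).filter (fun w => D.X.cq w ≠ D.X.cq v)).card := by
    have e1 : ∀ z, wk D n z =
        ∑ v ∈ pV D.X.P n, if D.G.Adj z v ∧ D.X.cq z ≠ D.X.cq v then 1 else 0 := by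
      intro z
      rw [wk, card_filter]
    rw [sum_congr rfl fun z _ => e1 z, sum_comm]
    refine sum_le_sum fun v _ => ?_
    rw [← card_filter]
    refine card_le_card fun z hz => ?_
    have hz' := (mem_filter.1 hz).2
    exact mem_filter.2 ⟨mem_filter.2 ⟨mem_univ _, hz'.1.symm⟩, hz'.2⟩
  exact_mod_cast h1

theorem wk_le (H : Hyp k c' D) (n : Fin N) {z : V} (hz : InT D.X Ty.B z) :
    wk D n z ≤ ⌊(D.d : ℝ) ^ (-c') * D.d⌋₊ := by
  refine Nat.le_floor (le_trans ?_ (H.pc.out z hz.1 (nHv H hz)))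
  have h1 : (pV D.X.P n).filter (fun v => D.G.Adj z v ∧ D.X.cq z ≠ D.X.cq v) ⊆
      (nb D.G z).filter (fun w => D.X.cq w ≠ D.X.cq z) := by
    intro v hv
    have h2 := (mem_filter.1 hv).2
    exact mem_filter.2 ⟨mem_filter.2 ⟨mem_univ _, h2.1⟩, h2.2.symm⟩
  exact_mod_cast card_le_card h1

/-- the tests -/
noncomputable def wq (D : OD V N J) : V ⊕ (ULift.{u} (Fin N) ⊕ ULift.{u} (Fin N)) → V → ℕ
  | Sum.inl v, z => if Te D.G D.X v z then 1 else 0
  | Sum.inr (Sum.inl n), z => if z ∈ pV D.X.P n.down then 1 else 0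
  | Sum.inr (Sum.inr n), z => if D.X.P.ty n.down = Ty.K then wk D n.down z else 0

/-- bounds for the weights -/
noncomputable def Wq (a : ℕ) : V ⊕ (ULift.{u} (Fin N) ⊕ ULift.{u} (Fin N)) → ℕ
  | Sum.inl _ => 1
  | Sum.inr (Sum.inl _) => 1
  | Sum.inr (Sum.inr _) => a

theorem wq_le (H : Hyp k c' D) (q : V ⊕ (ULift.{u} (Fin N) ⊕ ULift.{u} (Fin N))) {z : V}
    (hz : InT D.X Ty.B z) : wq D q z ≤ Wq ⌊(D.d : ℝ) ^ (-c') * D.d⌋₊ q := by
  rcases q with v | n | n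
  · show (if Te D.G D.X v z then 1 else 0) ≤ 1
    split_ifs <;> simp
  · show (if z ∈ pV D.X.P n.down then 1 else 0) ≤ 1
    split_ifs <;> simp
  · show (if D.X.P.ty n.down = Ty.K then wk D n.down z else 0) ≤ _
    split_ifs
    · exact wk_le H _ hz
    · exact Nat.zero_le _

theorem wq_card (H : Hyp k c' D) (z : V) :
    (univ.filter (fun q => wq D q z ≠ 0)).card ≤ 2 * D.d + 1 := by
  have h1 : univ.filter (fun q => wq D q z ≠ 0) ⊆
      ((nb D.G z).image Sum.inl ∪ {Sum.inr (Sum.inl ⟨D.X.P.pc z⟩)}) ∪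
        (nb D.G z).image (fun v => Sum.inr (Sum.inr ⟨D.X.P.pc v⟩)) := by
    intro q hq
    have hq' := (mem_filter.1 hq).2
    rcases q with v | n | n
    · refine mem_union_left _ (mem_union_left _ (mem_image.2 ⟨v, ?_, rfl⟩))
      have h2 : (if Te D.G D.X v z then 1 else 0) ≠ 0 := hq'
      split_ifs at h2 with h3
      · exact mem_filter.2 ⟨mem_univ _, h3.1.1.symm⟩
      · exact absurd rfl h2
    · refine mem_union_left _ (mem_union_right _ (mem_singleton.2 ?_))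
      have h2 : (if z ∈ pV D.X.P n.down then 1 else 0) ≠ 0 := hq'
      split_ifs at h2 with h3
      · have h4 := (mem_filter.1 h3).2.2
        rw [h4]
      · exact absurd rfl h2
    · refine mem_union_right _ (mem_image.2 ?_)
      have h2 : (if D.X.P.ty n.down = Ty.K then wk D n.down z else 0) ≠ 0 := hq'
      split_ifs at h2 with h3
      · obtain ⟨v, hv⟩ := card_pos.1 (Nat.pos_of_ne_zero h2)
        have hv' := mem_filter.1 hv
        have h4 := (mem_filter.1 hv'.1).2.2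
        exact ⟨v, mem_filter.2 ⟨mem_univ _, hv'.2.1⟩, by rw [h4]⟩
      · exact absurd rfl h2
  have h5 := H.pc.reg z
  refine (card_le_card h1).trans ((card_union_le _ _).trans ?_)
  have h6 := card_union_le ((nb D.G z).image Sum.inl)
    ({Sum.inr (Sum.inl ⟨D.X.P.pc z⟩)} : Finset (V ⊕ (ULift.{u} (Fin N) ⊕ ULift.{u} (Fin N))))
  have h7 : ((nb D.G z).image (Sum.inl : V → V ⊕ (ULift.{u} (Fin N) ⊕ ULift.{u} (Fin N)))).card ≤
    (nb D.G z).card := card_image_le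
  have h8 : ((nb D.G z).image (fun v => (Sum.inr (Sum.inr ⟨D.X.P.pc v⟩) :
    V ⊕ (ULift.{u} (Fin N) ⊕ ULift.{u} (Fin N))))).card ≤ (nb D.G z).card := card_image_le
  rw [card_singleton] at h6
  omega

theorem inv_le {κ x y m : ℝ} (hκ : 0 < κ) (hm : 0 < m) (hx : κ * m / 20 ≤ x) (hy : 0 ≤ y) :
    y / x ≤ 20 / (κ * m) * y := by
  have hxp : 0 < x := lt_of_lt_of_le (by positivity) hx
  rw [div_mul_eq_mul_div, div_le_div_iff₀ hxp (by positivity)]
  have h1 : y * (κ * m / 20) ≤ y * x := mul_le_mul_of_nonneg_left hx hy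
  linarith

theorem inv_mono {κ κ0 m : ℝ} (h0 : 0 < κ0) (hm : 0 < m) (h : κ0 ≤ κ) :
    20 / (κ * m) ≤ 20 / (κ0 * m) :=
  div_le_div_of_nonneg_left (by norm_num) (by positivity)
    (mul_le_mul_of_nonneg_right h hm.le)

theorem meanT (H : Hyp k c' D) (Gr : V → Finset ℕ) (m : ℕ) (hm : 0 < m) (κ0 : ℝ)
    (hκ0 : 0 < κ0) (hκ : ∀ n, κ0 ≤ (D.sl n).κ) (R : Finset V) (hR : ∀ z ∈ R, InT D.X Ty.B z)
    (hG : ∀ z ∈ R, (D.sl (D.X.P.pc z)).κ * m / 20 ≤ ((Gr z).card : ℝ)) {v : V}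
    (hv : InT D.X Ty.B v) :
    ∑ z ∈ R, (wq D (Sum.inl v) z : ℝ) / (Gr z).card ≤
      20 / ((D.sl (D.X.P.pc v)).κ * m) * ((D.sl (D.X.P.pc v)).ζ * D.d) +
        20 / (κ0 * m) * ((D.d : ℝ) ^ (-c') * D.d) := by
  have hmp : (0 : ℝ) < m := by exact_mod_cast hm
  have hκv : 0 < (D.sl (D.X.P.pc v)).κ := hκ0.trans_le (hκ _)
  have e1 : ∀ z ∈ R, (wq D (Sum.inl v) z : ℝ) / (Gr z).card ≤
      (if Te D.G D.X v z then 20 / ((D.sl (D.X.P.pc v)).κ * m) else 0) +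
        (if Te D.G D.X v z ∧ D.X.cq z ≠ D.X.cq v then 20 / (κ0 * m) else 0) := by
    intro z hz
    have hκz : 0 < (D.sl (D.X.P.pc z)).κ := hκ0.trans_le (hκ _)
    have e2 : wq D (Sum.inl v : V ⊕ (ULift.{u} (Fin N) ⊕ ULift.{u} (Fin N))) z =
      if Te D.G D.X v z then 1 else 0 := rfl
    rw [e2]
    by_cases ht : Te D.G D.X v z
    · rw [if_pos ht, if_pos ht, Nat.cast_one]
      have e3 := inv_le hκz hmp (hG z hz) zero_le_one
      rw [mul_one] at e3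
      by_cases hc : D.X.cq z = D.X.cq v
      · have e4 : D.X.sc (D.X.P.pc z) = D.X.sc (D.X.P.pc v) :=
          H.pc.scq z v (hR z hz).1 hv.1 hc
        have e5 : (D.sl (D.X.P.pc z)).κ = (D.sl (D.X.P.pc v)).κ := by
          rw [OD.sl, OD.sl, e4]
        rw [if_neg (fun h => h.2 hc), add_zero, ← e5]
        exact e3
      · rw [if_pos ⟨ht, hc⟩]
        have e6 : 0 ≤ 20 / ((D.sl (D.X.P.pc v)).κ * m) := by positivity
        have e7 := inv_mono hκ0 hmp (hκ (D.X.P.pc z))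
        linarith
    · rw [if_neg ht, if_neg ht, if_neg (fun h => ht h.1)]
      simp
  refine (sum_le_sum e1).trans ?_
  rw [sum_add_distrib, ← sum_filter, ← sum_filter, sum_const, sum_const, nsmul_eq_mul,
    nsmul_eq_mul, mul_comm, mul_comm (((R.filter (fun z => Te D.G D.X v z ∧
      D.X.cq z ≠ D.X.cq v)).card : ℝ))]
  refine add_le_add (mul_le_mul_of_nonneg_left ?_ (by positivity))
    (mul_le_mul_of_nonneg_left ?_ (by positivity))
  · refine le_trans ?_ (teC H hv)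
    exact_mod_cast card_le_card (filter_subset_filter _ (subset_univ R))
  · refine le_trans ?_ (teO H hv)
    exact_mod_cast card_le_card (filter_subset_filter _ (subset_univ R))

theorem meanP (hk : k.Ok) (H : Hyp k c' D) (Gr : V → Finset ℕ) (m : ℕ) (hm : 0 < m) (κ0 : ℝ)
    (hκ0 : 0 < κ0) (hκ : ∀ n, κ0 ≤ (D.sl n).κ) (R : Finset V)
    (hG : ∀ z ∈ R, (D.sl (D.X.P.pc z)).κ * m / 20 ≤ ((Gr z).card : ℝ)) (n : Fin N) :
    ∑ z ∈ R, (wq D (Sum.inr (Sum.inl ⟨n⟩)) z : ℝ) / (Gr z).card ≤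
      20 / ((D.sl n).κ * m) * (k.C * D.d) := by
  have hmp : (0 : ℝ) < m := by exact_mod_cast hm
  have hκn : 0 < (D.sl n).κ := hκ0.trans_le (hκ _)
  have e1 : ∀ z ∈ R, (wq D (Sum.inr (Sum.inl ⟨n⟩)) z : ℝ) / (Gr z).card ≤
      (if z ∈ pV D.X.P n then 20 / ((D.sl n).κ * m) else 0) := by
    intro z hz
    have e2 : wq D (Sum.inr (Sum.inl ⟨n⟩) : V ⊕ (ULift.{u} (Fin N) ⊕ ULift.{u} (Fin N))) z =
      if z ∈ pV D.X.P n then 1 else 0 := rfl
    rw [e2]
    by_cases ht : z ∈ pV D.X.P n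
    · rw [if_pos ht, if_pos ht, Nat.cast_one]
      have e4 := (mem_filter.1 ht).2.2
      have e5 := hG z hz
      rw [e4] at e5
      have e3 := inv_le hκn hmp e5 zero_le_one
      rwa [mul_one] at e3
    · rw [if_neg ht, if_neg ht]
      simp
  refine (sum_le_sum e1).trans ?_
  rw [← sum_filter, sum_const, nsmul_eq_mul, mul_comm]
  refine mul_le_mul_of_nonneg_left ?_ (by positivity)
  refine le_trans ?_ (pVc hk H n)
  have e6 : R.filter (fun z => z ∈ pV D.X.P n) ⊆ pV D.X.P n := fun z hz => (mem_filter.1 hz).2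
  exact_mod_cast card_le_card e6

theorem meanK (H : Hyp k c' D) (Gr : V → Finset ℕ) (m : ℕ) (hm : 0 < m) (κ0 : ℝ)
    (hκ0 : 0 < κ0) (hκ : ∀ n, κ0 ≤ (D.sl n).κ) (R : Finset V)
    (hG : ∀ z ∈ R, (D.sl (D.X.P.pc z)).κ * m / 20 ≤ ((Gr z).card : ℝ)) (n : Fin N) :
    ∑ z ∈ R, (wq D (Sum.inr (Sum.inr ⟨n⟩)) z : ℝ) / (Gr z).card ≤
      20 / (κ0 * m) * ((D.d : ℝ) ^ (-c') * (D.d : ℝ) ^ 2) := by
  have hmp : (0 : ℝ) < m := by exact_mod_cast hm
  have e1 : ∀ z ∈ R, (wq D (Sum.inr (Sum.inr ⟨n⟩)) z : ℝ) / (Gr z).card ≤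
      20 / (κ0 * m) * wk D n z := by
    intro z hz
    have hκz : 0 < (D.sl (D.X.P.pc z)).κ := hκ0.trans_le (hκ _)
    have e2 : wq D (Sum.inr (Sum.inr ⟨n⟩) : V ⊕ (ULift.{u} (Fin N) ⊕ ULift.{u} (Fin N))) z =
      if D.X.P.ty n = Ty.K then wk D n z else 0 := rfl
    rw [e2]
    have e0 : (0 : ℝ) ≤ wk D n z := Nat.cast_nonneg _
    split_ifs with h
    · refine (inv_le hκz hmp (hG z hz) e0).trans ?_
      exact mul_le_mul_of_nonneg_right (inv_mono hκ0 hmp (hκ _)) e0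
    · rw [Nat.cast_zero, zero_div]
      positivity
  refine (sum_le_sum e1).trans ?_
  rw [← mul_sum]
  exact mul_le_mul_of_nonneg_left (wk_sum H n R) (by positivity)

/-- the lists -/
theorem list_le (H : Hyp k c' D) {Hf : Fin N → Bool → Bool → Finset ℕ} (Bn : V → Finset ℕ)
    (h1 : ∀ n i β, Hf n i β ⊆ D.Qn n i)
    (h2 : ∀ n i β, (D.Qn n i).card ≤ 2 * (Hf n i β).card + 1) {v : V}
    (hv : InT D.X Ty.B v) (hB : ((Bn v ∩ D.Qn (D.X.P.pc v) (D.X.P.pt v)).card : ℝ) ≤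
      (D.Qn (D.X.P.pc v) (D.X.P.pt v)).card / 4 + 3 * (D.sl (D.X.P.pc v)).ζ * D.d)
    (hζ : (D.sl (D.X.P.pc v)).ζ ≤ (D.sl (D.X.P.pc v)).κ / 10 ^ 6)
    (hd : 1000 ≤ (D.sl (D.X.P.pc v)).κ * D.d) :
    (D.sl (D.X.P.pc v)).κ * D.d / 5 ≤
      ((Hf (D.X.P.pc v) (D.X.P.pt v) (D.X.P.sd v) \ Bn v).card : ℝ) := by
  have e1 := (H.sel.Qc (D.X.P.pc v) (Or.inr hv.2) (D.X.P.pt v)).1
  have e2 := h2 (D.X.P.pc v) (D.X.P.pt v) (D.X.P.sd v)
  have e3 := h1 (D.X.P.pc v) (D.X.P.pt v) (D.X.P.sd v)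
  set Q := D.Qn (D.X.P.pc v) (D.X.P.pt v)
  set h := Hf (D.X.P.pc v) (D.X.P.pt v) (D.X.P.sd v)
  set κ := (D.sl (D.X.P.pc v)).κ with hκ
  have e4 : κ * D.d ≤ (Q.card : ℝ) := e1
  have e5 : h.card ≤ (h \ Bn v).card + (Bn v ∩ Q).card := by
    have h3 : h ⊆ (h \ Bn v) ∪ (Bn v ∩ Q) := by
      intro b hb
      by_cases hb' : b ∈ Bn v
      · exact mem_union_right _ (mem_inter.2 ⟨hb', e3 hb⟩)
      · exact mem_union_left _ (mem_sdiff.2 ⟨hb, hb'⟩)
    exact (card_le_card h3).trans (card_union_le _ _)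
  have e6 : (h.card : ℝ) ≤ (h \ Bn v).card + (Bn v ∩ Q).card := by exact_mod_cast e5
  have e7 : (Q.card : ℝ) ≤ 2 * h.card + 1 := by exact_mod_cast e2
  have e8 : (D.sl (D.X.P.pc v)).ζ * D.d ≤ κ / 10 ^ 6 * D.d :=
    mul_le_mul_of_nonneg_right hζ (Nat.cast_nonneg _)
  have e9 : 3 * (D.sl (D.X.P.pc v)).ζ * (D.d : ℝ) = 3 * ((D.sl (D.X.P.pc v)).ζ * D.d) := by ring
  have e10 : κ / 10 ^ 6 * (D.d : ℝ) = κ * D.d / 10 ^ 6 := by ring
  rw [e9] at hB
  rw [e10] at e8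
  linarith

end

/-! ## Numbers -/

theorem num_div {d m l x κ : ℝ} (hm : 0 < m) (hκ : 0 < κ) (hx : 0 ≤ x) (h : d ≤ m * l) :
    20 / (κ * m) * (x * d) ≤ 20 * x * l / κ := by
  have e1 : 20 / (κ * m) * (x * d) = 20 * x * d / (κ * m) := by ring
  rw [e1, div_le_div_iff₀ (by positivity) hκ]
  have e2 : 20 * x * κ * d ≤ 20 * x * κ * (m * l) := mul_le_mul_of_nonneg_left h (by positivity)
  linarith

theorem num1 {κ κ0 ζ a d m l L2 : ℝ} (hm : 0 < m) (hl : 0 < l) (hκ0 : 0 < κ0) (hκ : κ0 ≤ κ)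
    (hζ0 : 0 ≤ ζ) (ha0 : 0 ≤ a) (hdm : d ≤ m * l) (hζ : ζ ≤ κ ^ 2 / 10 ^ 6)
    (ha : a ≤ κ0 ^ 2 / 10 ^ 6) (hL : 108 * L2 ≤ κ0 * l / 400) :
    108 * (20 / (κ * m) * (ζ * d) + 20 / (κ0 * m) * (a * d)) + 108 * 1 * L2 ≤ κ * l / 100 := by
  have hκp : 0 < κ := hκ0.trans_le hκ
  have h1 := num_div hm hκp hζ0 hdm
  have h2 := num_div hm hκ0 ha0 hdm
  have h3 : 20 * ζ * l / κ ≤ 20 * (κ * l) / 10 ^ 6 := by
    rw [div_le_div_iff₀ hκp (by norm_num)]
    have h4 : 20 * 10 ^ 6 * l * ζ ≤ 20 * 10 ^ 6 * l * (κ ^ 2 / 10 ^ 6) :=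
      mul_le_mul_of_nonneg_left hζ (by positivity)
    have h5 : 20 * 10 ^ 6 * l * (κ ^ 2 / 10 ^ 6) = 20 * (κ * l) * κ := by ring
    rw [h5] at h4
    linarith
  have h6 : 20 * a * l / κ0 ≤ 20 * (κ0 * l) / 10 ^ 6 := by
    rw [div_le_div_iff₀ hκ0 (by norm_num)]
    have h4 : 20 * 10 ^ 6 * l * a ≤ 20 * 10 ^ 6 * l * (κ0 ^ 2 / 10 ^ 6) :=
      mul_le_mul_of_nonneg_left ha (by positivity)
    have h5 : 20 * 10 ^ 6 * l * (κ0 ^ 2 / 10 ^ 6) = 20 * (κ0 * l) * κ0 := by ring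
    rw [h5] at h4
    linarith
  have h7 : κ0 * l ≤ κ * l := mul_le_mul_of_nonneg_right hκ hl.le
  have h8 : 0 < κ * l := by positivity
  norm_num at h3 h6
  linarith

theorem num2 {κ κ0 C d m l L2 T : ℝ} (hm : 0 < m) (hl : 0 < l) (hκ0 : 0 < κ0) (hκ : κ0 ≤ κ)
    (hκ1 : κ ≤ 1) (hC : 1 ≤ C) (hdm : d ≤ m * l) (hL : 108 * L2 ≤ κ0 * l / 400)
    (hT : 220000 * C / κ ^ 2 ≤ T) :
    108 * (20 / (κ * m) * (C * d)) + 108 * 1 * L2 ≤ T * (κ * l / 100) := by
  have hκp : 0 < κ := hκ0.trans_le hκ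
  have h1 := num_div hm hκp (by linarith : (0 : ℝ) ≤ C) hdm
  have h2 : 220000 * C / κ ^ 2 * (κ * l / 100) ≤ T * (κ * l / 100) :=
    mul_le_mul_of_nonneg_right hT (by positivity)
  have h3 : 220000 * C / κ ^ 2 * (κ * l / 100) = 2200 * (C * l / κ) := by
    field_simp
    ring
  have h4 : 20 * C * l / κ = 20 * (C * l / κ) := by ring
  have h5 : κ0 * l ≤ C * l / κ := by
    rw [le_div_iff₀ hκp]
    have h6 : κ0 * κ ≤ 1 := by nlinarith
    have h7 : κ0 * κ * l ≤ 1 * l := mul_le_mul_of_nonneg_right h6 hl.le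
    have h8 : 1 * l ≤ C * l := mul_le_mul_of_nonneg_right hC hl.le
    linarith
  have h9 : 0 < C * l / κ := by positivity
  rw [h3] at h2
  rw [h4] at h1
  linarith

theorem num3 {κ0 a d m l L2 e W : ℝ} (hm : 0 < m) (hκ0 : 0 < κ0)
    (ha0 : 0 ≤ a) (hd : 0 ≤ d) (hdm : d ≤ m * l) (hL0 : 0 ≤ L2)
    (hL : 2160 / κ0 * l * a + 108 * a * L2 ≤ e / 16) (hW : W ≤ a * d) :
    108 * (20 / (κ0 * m) * (a * d ^ 2)) + 108 * W * L2 ≤ e / 16 * d := by
  have h1 : 20 / (κ0 * m) * (a * d ^ 2) ≤ 20 * (a * d) * l / κ0 := by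
    have h2 := num_div hm hκ0 (by positivity : 0 ≤ a * d) hdm
    have h3 : a * d ^ 2 = a * d * d := by ring
    rw [h3]
    exact h2
  have h4 : 108 * W * L2 ≤ 108 * (a * d) * L2 := by
    have := mul_le_mul_of_nonneg_right hW hL0
    linarith
  have h5 : (2160 / κ0 * l * a + 108 * a * L2) * d ≤ e / 16 * d :=
    mul_le_mul_of_nonneg_right hL hd
  have h6 : (2160 / κ0 * l * a + 108 * a * L2) * d =
      108 * (20 * (a * d) * l / κ0) + 108 * (a * d) * L2 := by ring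
  rw [h6] at h5
  linarith

theorem num4 {κ C ζ e M T : ℝ} (hκ : 0 < κ) (hκ1 : κ ≤ 1) (hC : 1 ≤ C) (he : 0 < e)
    (hM : 0 ≤ M) (hζ0 : 0 ≤ ζ) (hT : T < 220000 * C / κ ^ 2 + 1)
    (hζ : ζ ≤ e * κ ^ 2 / (16 * 220001 * C * (M + 1))) : M * T * ζ ≤ e / 16 := by
  have h0 : κ ^ 2 ≤ 1 := pow_le_one₀ hκ.le hκ1
  have h1 : T ≤ 220001 * C / κ ^ 2 := by
    have h2 : (1 : ℝ) ≤ C / κ ^ 2 := by
      rw [le_div_iff₀ (by positivity)]
      linarith
    have h3 : 220001 * C / κ ^ 2 = 220000 * C / κ ^ 2 + C / κ ^ 2 := by ring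
    linarith
  have h4 : M * T * ζ ≤ M * (220001 * C / κ ^ 2) * ζ :=
    mul_le_mul_of_nonneg_right (mul_le_mul_of_nonneg_left h1 hM) hζ0
  have h5 : M * (220001 * C / κ ^ 2) * ζ ≤
      M * (220001 * C / κ ^ 2) * (e * κ ^ 2 / (16 * 220001 * C * (M + 1))) :=
    mul_le_mul_of_nonneg_left hζ (by positivity)
  have h6 : M * (220001 * C / κ ^ 2) * (e * κ ^ 2 / (16 * 220001 * C * (M + 1))) =
      e / 16 * (M / (M + 1)) := by
    field_simp
  have h7 : M / (M + 1) ≤ 1 := by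
    rw [div_le_one (by positivity)]
    linarith
  have h8 : e / 16 * (M / (M + 1)) ≤ e / 16 * 1 := mul_le_mul_of_nonneg_left h7 (by positivity)
  linarith

theorem num5 {s1 s2 T Ls : ℕ} {x : ℝ} (hx : 0 < x) (hT : 0 < T) (h1 : (s1 : ℝ) ≤ x / 100)
    (h2 : (s2 : ℝ) ≤ T * (x / 100)) (h3 : x / 20 ≤ (Ls : ℝ)) : s1 * T + s2 < Ls * T := by
  have hT' : (0 : ℝ) < T := by exact_mod_cast hT
  have h4 : (s1 : ℝ) * T ≤ x / 100 * T := mul_le_mul_of_nonneg_right h1 hT'.le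
  have h5 : x / 20 * T ≤ (Ls : ℝ) * T := mul_le_mul_of_nonneg_right h3 hT'.le
  have h6 : 0 < x * T := by positivity
  have h7 : (s1 : ℝ) * T + s2 < Ls * T := by linarith
  exact_mod_cast h7

end Pool.Agent.Work.MP_db9399_oc_helper42
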